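import Mathlib
import Pool.Agent.H905R2.KMapMain

/-!
# Exactly `k`-to-1 maps between graphs: a finite necessary and sufficient condition

A topological graph is given as the body `Body G` of a finite simple graph `G` on `Fin n`: the
union of the straight segments `[e_v, e_w]`, `vw` an edge of `G` (every finite graph, also one
with parallel edges, is homeomorphic to such a body: subdivide it).

A `k`-to-1 map `Body G → Body H` exists if and only if there is a `k`-scheme from `G` to the graph
obtained from `H` by dividing every edge into `n + 1` edges; schemes are finite combinatorial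
objects of bounded size.
-/

namespace Pool.Agent.Results.MP_cde9db_gt.KToOne

open H905R2.KMap

theorem result {n m k : ℕ} (hk : 0 < k) (G : SimpleGraph (Fin n)) (hG : ∀ v, ∃ w, G.Adj v w)
    (H : SimpleGraph (Fin m)) :
    ((∃ f : Body G → Body H, Continuous f ∧ ∀ y, (f ⁻¹' {y}).ncard = k) ↔
      ∃ φ P, IsScheme G (subdiv (n + 1) H) k φ P) ∧
    ∀ φ P, IsScheme G (subdiv (n + 1) H) k φ P →
      ∑ p ∈ edges G, (P p.1 p.2).length ≤ k * ((n + 1) * (edges H).card) :=
  main hk G hG H

end Pool.Agent.Results.MP_cde9db_gt.KToOne
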